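import Pool.Agent.H608R3.GBC.AF

/-!
# The positive mass conjecture for the Gauss-Bonnet-Chern mass fails (MP_c3d4b2_gt, Q1: disproof)

The metric is `g = δ + 10 / (1 + |x|⁴) (Jx) ⊗ (Jx)` on `ℝ⁸ = ℂ⁴`, with `J` the multiplication by `i`.
-/

set_option autoImplicit false

namespace Pool.Agent.Results.MP_c3d4b2_gt.NegativeMass

open Pool.Agent.H608R3.GBC

/-- There is a complete Riemannian metric on `ℝ⁸`, asymptotically flat of order `2 > (8 - 4) / 3`,
whose Gauss-Bonnet curvature `L₂` is positive everywhere (and integrable) and whose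
Gauss-Bonnet-Chern mass `m₂` is equal to `-45/7 < 0`. -/
theorem result :
    ∃ g : Pt 8 → Matrix (Fin 8) (Fin 8) ℝ,
      IsRiemannianMetric g ∧ IsCompleteMetric g ∧
      (∃ τ : ℝ, ((8 : ℝ) - 4) / 3 < τ ∧ IsAsymptoticallyFlat g τ) ∧
      (∀ x, 0 < L2 g x) ∧ HasGBCMass g (-(45 / 7)) :=
  ⟨g8, isRiemannianMetric_g8, isComplete_g8, ⟨2, by norm_num, isAF_g8⟩, L2_pos, hasMass_g8⟩

end Pool.Agent.Results.MP_c3d4b2_gt.NegativeMass
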